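import Pool.Agent.helper60.XP.AllX

/-!
# Project ef: export lists (old constants that do not depend on the polynomial)
-/

namespace YXPG
export XPG (
  EN1_stmt EN2_stmt GAG_tend GAL_bd GAL_ev GAL_mv GAL_tend GEI_int GEN_En GEN_En_bd GEN_meas_u 
  GEN_pt GEN_u GEN_u_le GEN_u_sub GF2_deriv GGR_comp GM1_two GMF_lab GML_A1 GML_cv GML_zl_mem 
  GMS_lab GQE_conv GQE_exp GQE_local GQL_lim GQL_seq GSE_aff GSE_val GSE_zero GZP_lim LimX 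
  LimX.A1 LimX.B2 LimX.BA LimX.Bd LimX.Bp LimX.com LimX.eF LimX.eZ LimX.far LimX.grp LimX.hg 
  LimX.inv LimX.mk LimX.qB LimX.qd LimX.sep LimX.th LimX.v0 LimX.vA LimX.vd LimX.zero VLM_exp)
end YXPG

namespace YXPL
export XPL (
  BA1_prod CAF CAF_l CAF_lin CAF_stmt CAF_surj CAF_two EXB_cnt EXB_real INJ_aux NIX_der NIX_sqrt 
  PHS_phi REC_ball REC_deriv REC_diff REC_lev REC_nat SGN SGN_l SGN_stmt STP_e3 STP_eT 
  STP_nat_mono)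
end YXPL

namespace YXPS
export XPS (
  EV3_ofReal_sum EVTX_BBd IsNat IsNat.av IsNat.diff IsNat.eq IsNat.mk LEAX_B LVG_norm_sum 
  LVG_split LVX_norm_sum LVX_re_sum LVX_split Mu3 NPLX NPLX_loc NPLX_stmt NPLX_x NUX NUX_core 
  NUX_loc NUX_prim NUX_stmt NUX_x PT3_fam S3A_card S3G_cn S3L_Icc S3L_nested S3L_ofReal_sum_le 
  d3 e3 eT lev tau)
end YXPS

namespace YXPT
export XPT (
  DIA DIA_stmt DIR DIR_stmt INVB_comp INVB_inv INVB_joint INVB_lim INVB_lip INVB_phi 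
  INVB_phi_cont INVB_phi_nonneg INVB_pt INVG INVG_aux INVG_stmt INVL INVL_stmt PSI_prod RLT 
  RLT_stmt ROT ROT_inverse ROT_punct ROT_stmt RTU RTU_avg RTU_stmt RTX RTX_const RTX_fac RTX_ode 
  RTX_stmt STA_est STB_lim STC_ofReal_sum STC_tel STN_ccA STN_ccB STN_ccC STN_ccD STN_dne 
  STN_inj STN_inv STN_low STN_rel STN_rot STN_rotp STS_pos)
end YXPT

namespace YXPD
export XPD (
  DGO_BB DGO_range DIN_inj DIT_prod DTR_mvt SWZ SWZ_stmt)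
end YXPD

namespace YPPS
export PPS (
  BDY_prod BDY_sep EVT_cov EVT_mean EVT_ms EVT_single MS_cplx MS_toReal PEX_log1 PEX_log2 
  PEX_param PEX_res PEX_ring PEX_slope cn)
end YPPS

namespace YXPN
export XPN (
  N2A_half NA1_term NAF NAF_stmt NCA_dist NCA_half NCA_half')
end YXPN

namespace YXPE
export XPE (
  C2Q C2Q_int C2Q_le C2Q_meas C2Q_nonneg C2Q_norm_le C2Q_real C2Q_stmt C2V C2V_stmt ENB ENB_norm 
  ENB_stmt ENDG ENDG_stmt FCP FCP_stmt FEN FEN_cont FEN_stmt FGR FGR_lin FGR_stmt FPP FPP_U 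
  FPP_U0 FPP_Ud FPP_bd FPP_eq FPP_phase FPP_stmt FQN FQN_circle FQN_nonneg FQN_stmt FQP 
  FQP_circle FQP_cont FQP_stmt FRT FRT_num FRT_stmt FSUM FSUM_d1 FSUM_d2 FSUM_stmt GRO GRO_stmt 
  GTR GTR_stmt Lim Lim.A1 Lim.B2 Lim.BA Lim.Bd Lim.Bp Lim.com Lim.eF Lim.eZ Lim.grp Lim.hg 
  Lim.inv Lim.mk Lim.ne Lim.qB Lim.qd Lim.sep Lim.th Lim.v0 Lim.vA Lim.vd Lim.zero PDE PDE_equiv 
  PDE_stmt PDE_summable PDE_term PEN PEN_core PEN_exp1 PEN_shift PEN_stmt PPE PPE_stmt PPH 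
  PPH_F3 PPH_genlow PPH_genup PPH_inv PPH_low PPH_stmt PPH_up PQC PQC_char PQC_cont PQC_lin 
  PQC_lo PQC_normslice PQC_nz PQC_small PQC_stmt PQC_up PRAT PRAT_add PRAT_exp_add PRAT_exp_ne 
  PRAT_im PRAT_liou PRAT_stmt PSL PSL_En_bd PSL_measB PSL_measEn PSL_stmt PVG PVG_arg PVG_expint 
  PVG_grow PVG_lin PVG_line PVG_low0 PVG_lowB PVG_norm PVG_notin PVG_stmt VB1 VB1_stmt)
end YXPE

namespace YV3
export V3 (
  AFF2 AFF2_stmt BF CHI_add CHI_congr CHI_int CHI_smul CHI_sum CHP CHP_prim CHP_stmt Chain 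
  Chain.c1 Chain.cl Chain.mk Chain.per Conf Conf.C0 Conf.c0 Conf.hg Conf.hx Conf.mk Conf.sep En 
  EvHol FCI FCI_mean FCI_stmt FLAG FLAG_stmt FPH FPH_U FPH_U0 FPH_Ud FPH_bd FPH_eq FPH_phase 
  FPH_stmt FPL FPL_inner FPL_stmt FPOL_M FPOL_Mdeg FPOL_S FPOL_Sdeg GEL GEL_stmt GLA GLA_stmt 
  GSF GSF_stmt KO0 KO0_deriv KO0_stmt KO1 KO1_stmt KO2 KO2_omit KO2_stmt KO3 KO3_gron KO3_second 
  KO3_stmt LP NB2 NB2_T NB2_cont NB2_hd1 NB2_hd2 NB2_second NB2_stmt NB2_tail NBD NBD_near 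
  NBD_stmt NBP NBP_stmt NFA NFA_b0 NFA_b2 NFA_d1 NFA_d2 NFA_id NFA_stmt NLP NLP_fin NLP_stmt NMO 
  NMO_diff NMO_local NMO_near NMO_stmt NMO_term NORM NORM_stmt NPK NPK_stmt NSU NSU_stmt PCO 
  PCO_stmt PFO PFO_shift PFO_stmt PFO_zero PIN PIN_cont PIN_norm PIN_stmt PPH_F PPH_exp_small 
  PPH_normY PPH_norm_ph PPH_notmem PPH_one_add PPH_ph PPH_ph.eq_1 PPH_phY PPH_ph_mul PPH_twist 
  PR0 PR0_bd PR0_dec PR0_exp PR0_lau PR0_nrm PR0_stmt REMO REMO_closed REMO_nhds REMO_stmt SQC 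
  SQC_stmt TBX TBX_stmt TDE TDE_ev TDE_loc TDE_one TDE_stmt TMO TMO_F TMO_F_spec TMO_lim TMO_lip 
  TMO_stmt TMO_unif TUL TUL_stmt ZL chi far)
end YV3

namespace YXPX
export XPX (
  EN1M EN1M_stmt EN2M EN2M_stmt)
end YXPX

namespace YV3S
export V3S (
  CAF_lin CAF_surj CAF_two GZF_K GZF_exp GZF_pairs GZX GZX_stmt NCH NCH_root NCH_stmt UF UF_em 
  UF_le UF_not instNeBotNatUF)
end YV3S

namespace YXPA
export XPA (
  C2Q_e C2V_e DIA_t DIR_t EN1M_x EN2M_x ENB_e ENDG_e FCP_e FEN_e FGR_e FPP_e FQN_e FQP_e FRT_e 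
  FSUM_e GRO_e GTR_e INVG_t INVL_t NAF_n PDE_e PEN_e PPE_e PPH_e PQC_e PRAT_e PSL_e PVG_e RLT_t 
  ROT_t RTU_t RTX_t SWZ_d VB1_e)
end YXPA

namespace YV3A
export V3A (
  AFF2_v CHP_v FCI_v FLAG_v FPH_v FPL_v GEL_v GLA_v GSF_v GZX_v KO0_v KO1_v KO2_v KO3_v NB2_v 
  NBD_v NBP_v NCH_v NFA_v NLP_v NMO_v NORM_v NPK_v NSU_v PCO_v PFO_v PIN_v PR0_v REMO_v SQC_v 
  TBX_v TDE_v TMO_v TUL_v)
end YV3A
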