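import Pool.Agent.helper91.CSS.Base

/-!
# Project csw: (MP_70a088_an): block W for CLASS S: base

The API of `Polynomial ℂ` for `CSS.SE` is in helper91/CSS/Base.lean (`f.eval z`, `f.derivative.eval z`, `f.natDegree` which is the number of the singular values plus two: a dummy, the parameter `n` of the old statements).
-/

set_option autoImplicit false

open Complex Metric Set Filter Topology MeasureTheory

noncomputable section

namespace CSS

namespace SE

theorem two_le (f : SE) : 2 ≤ f.natDegree := f.two_le_natDegree

attribute [simp] CSS.SE.deriv

end SE

end CSS

end
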